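import Mathlib

/-! Statements for project RA: for every `δ < 1/3` only `O(X ^ (1 - (1 - 3 δ) / 11))` integers
`R ≤ X` are the radical of an abc triple `a + b = c` with `log c ≤ X ^ δ`. -/

namespace Pool.Agent.W223.RA

open Finset

noncomputable section

/-- A coprime pair `0 < a ≤ b`; the triple is `a + b = c`. -/
def Trip (a b : ℕ) : Prop := 0 < a ∧ a ≤ b ∧ Nat.Coprime a b

/-- The product `a b c`, `c = a + b`. -/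
def N3 (a b : ℕ) : ℕ := a * b * (a + b)

/-- `ℓ ≤ log c ≤ (33/32) ℓ`. -/
def Scale (ℓ : ℝ) (a b : ℕ) : Prop :=
  ℓ ≤ Real.log ((a + b : ℕ) : ℝ) ∧ Real.log ((a + b : ℕ) : ℝ) ≤ 33 / 32 * ℓ

/-- The part of `a b c` prime to `S` is at most `c ^ (7/8)`. -/
def Light (S : Finset ℕ) (a b : ℕ) : Prop :=
  Real.log (N3 a b : ℝ) - 7 / 8 * Real.log ((a + b : ℕ) : ℝ) ≤
    ∑ q ∈ S, ((N3 a b).factorization q : ℝ) * Real.log q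

/-- The two triples are in the same cell. -/
def Near (S : Finset ℕ) (ℓ : ℝ) (a₁ b₁ a₂ b₂ : ℕ) : Prop :=
  ∀ q ∈ S, (q ∣ a₁ ↔ q ∣ a₂) ∧ (q ∣ b₁ ↔ q ∣ b₂) ∧ (q ∣ a₁ + b₁ ↔ q ∣ a₂ + b₂) ∧
    |(((N3 a₁ b₁).factorization q : ℝ) - ((N3 a₂ b₂).factorization q : ℝ)) * Real.log q| ≤
      ℓ / (32 * (S.card + 1))

/-- CNT: lattice points in a simplex. -/
def StmtCNT : Prop := ∀ (S : Finset ℕ) (N : ℕ),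
  ((Finset.univ : Finset (S → Fin (N + 1))).filter (fun f => ∑ q, (f q : ℕ) ≤ N)).card ≤
    2 ^ (N + S.card)

/-- CEL: few cells. -/
def StmtCEL : Prop := ∀ (S : Finset ℕ) (ℓ : ℝ), (∀ q ∈ S, q.Prime) → 0 < ℓ →
  ∃ F : ℕ × ℕ → Fin (2 ^ (105 * (S.card + 1))), ∀ a₁ b₁ a₂ b₂ : ℕ, Trip a₁ b₁ → Trip a₂ b₂ →
    Scale ℓ a₁ b₁ → Scale ℓ a₂ b₂ → F (a₁, b₁) = F (a₂, b₂) → Near S ℓ a₁ b₁ a₂ b₂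

/-- GP1: gap principle, one cell contains one light triple. -/
def StmtGP1 : Prop := ∀ (S : Finset ℕ) (ℓ : ℝ), (∀ q ∈ S, q.Prime) → 12 ≤ ℓ →
  ∀ a₁ b₁ a₂ b₂ : ℕ, Trip a₁ b₁ → Trip a₂ b₂ → Scale ℓ a₁ b₁ → Scale ℓ a₂ b₂ →
    Light S a₁ b₁ → Light S a₂ b₂ → Near S ℓ a₁ b₁ a₂ b₂ → a₁ = a₂ ∧ b₁ = b₂

/-- GAP: few light triples. -/
def StmtGAP : Prop := ∀ (S : Finset ℕ) (ℓ : ℝ), (∀ q ∈ S, q.Prime) → 12 ≤ ℓ →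
  {x : ℕ × ℕ | Trip x.1 x.2 ∧ Scale ℓ x.1 x.2 ∧ Light S x.1 x.2}.Finite ∧
  {x : ℕ × ℕ | Trip x.1 x.2 ∧ Scale ℓ x.1 x.2 ∧ Light S x.1 x.2}.ncard ≤
    2 ^ (105 * (S.card + 1))

/-- LTE: lifting the exponent for all primes of `m`. -/
def StmtLTE : Prop := ∀ (G e P Q m : ℕ), 1 ≤ e → (∀ q : ℕ, q.Prime → q ∣ G → q ∣ m) →
  Nat.Coprime P m → ((4 * m : ℕ) : ℤ) ∣ (P : ℤ) - Q → (G : ℤ) ∣ (P : ℤ) ^ e - (Q : ℤ) ^ e →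
  (G : ℤ) ∣ (e : ℤ) * ((P : ℤ) - Q)

/-- PG2: the pigeonhole argument with products of primes. -/
def StmtPG2 : Prop := ∀ (m e n K G Y : ℕ) (s : ℤ) (p x z : Fin n → ℕ), Squarefree m → 1 ≤ e →
  (s = 1 ∨ s = -1) → (∀ i, (p i).Prime) → (∀ i, ¬ p i ∣ m) → (∀ i, p i ≤ Y) →
  Function.Injective p → (∀ i, x i ∣ m ^ K) → (∀ i, z i ∣ m ^ K) →
  (∀ i, Nat.Coprime (x i) G) → (∀ q : ℕ, q.Prime → q ∣ G → q ∣ m) →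
  (∀ i, (G : ℤ) ∣ (p i : ℤ) ^ e * (x i : ℤ) - s * (z i : ℤ)) →
  8 * m * (n * K + 1) ^ (2 * m.primeFactors.card) < 2 ^ n → G ≤ e * Y ^ n

/-- The primes `p` for which `p ∏ S` is the radical of a triple of scale `ℓ` in which `p` has
exponent `e`. -/
def PigSet (X : ℝ) (S : Finset ℕ) (ℓ : ℝ) (e : ℕ) : Set ℕ :=
  {p : ℕ | p.Prime ∧ p ∉ S ∧ (p : ℝ) ≤ X ∧ ∃ a b : ℕ, Trip a b ∧ Scale ℓ a b ∧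
    (N3 a b).primeFactors = insert p S ∧ (N3 a b).factorization p = e}

/-- PIG: few primes for every `S` and every exponent. -/
def StmtPIG : Prop := ∃ X₀ : ℝ, 3 ≤ X₀ ∧ ∀ X : ℝ, X₀ ≤ X → ∀ (S : Finset ℕ) (ℓ : ℝ) (e : ℕ),
  (∀ q ∈ S, q.Prime) → ((∏ q ∈ S, q : ℕ) : ℝ) ≤ X → Real.log X ^ ((9 : ℝ) / 4) ≤ ℓ → ℓ ≤ X →
  ((PigSet X S ℓ e).ncard : ℝ) ≤ 2 ^ (120 * (S.card + 1)) * Real.log X ^ (3 : ℕ)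

/-- PRT: a light set or a large element. -/
def StmtPRT : Prop := ∀ (P : Finset ℕ) (θ π : ℕ → ℝ) (L ρ : ℝ), 0 < L → 0 ≤ ρ → ρ ≤ 1 →
  P.Nonempty → (∀ p ∈ P, 0 ≤ θ p) → (∀ p ∈ P, 0 ≤ π p) → ∑ p ∈ P, π p ≤ 3 * L →
  (∃ s ⊆ P, ∑ p ∈ s, π p ≤ 7 / 8 * L ∧ ρ / 7 * ∑ p ∈ P, θ p ≤ ∑ p ∈ s, θ p) ∨
  ∃ p ∈ P, (1 - ρ) / 3 * ∑ p ∈ P, θ p ≤ θ p

/-- OM: few integers have many prime factors. -/
def StmtOM : Prop := ∃ X₀ : ℝ, 3 ≤ X₀ ∧ ∀ X : ℝ, X₀ ≤ X →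
  (({R : ℕ | 1 ≤ R ∧ (R : ℝ) ≤ X ∧
    Real.log X / (10 * Real.log (Real.log X)) ≤ (R.primeFactors.card : ℝ)}.ncard : ℕ) : ℝ) ≤
      X ^ ((181 : ℝ) / 200)

/-- The radicals (with few prime factors) of the triples `a + b = c` satisfying `Q a b`. -/
def RadSet (X : ℝ) (Q : ℕ → ℕ → Prop) : Set ℕ :=
  {R : ℕ | (R : ℝ) ≤ X ∧
    (R.primeFactors.card : ℝ) ≤ Real.log X / (10 * Real.log (Real.log X)) ∧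
    ∃ a b : ℕ, Trip a b ∧ ∏ p ∈ (N3 a b).primeFactors, p = R ∧ Q a b}

/-- TR: small heights. -/
def StmtTR : Prop := ∃ X₀ : ℝ, 3 ≤ X₀ ∧ ∀ X : ℝ, X₀ ≤ X →
  ((RadSet X (fun a b => Real.log ((a + b : ℕ) : ℝ) ≤ Real.log X ^ ((9 : ℝ) / 4))).ncard : ℝ) ≤
    X ^ ((181 : ℝ) / 200)

/-- FL: triples with a light set of primes. -/
def StmtFL : Prop := ∀ δ : ℝ, 0 < δ → δ < 1 / 3 → ∃ X₀ : ℝ, 3 ≤ X₀ ∧ ∀ X : ℝ, X₀ ≤ X →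
  ((RadSet X (fun a b => Real.log X ^ ((9 : ℝ) / 4) ≤ Real.log ((a + b : ℕ) : ℝ) ∧
    Real.log ((a + b : ℕ) : ℝ) ≤ X ^ δ ∧
    ∃ s ⊆ (N3 a b).primeFactors,
      ∑ p ∈ s, ((N3 a b).factorization p : ℝ) * Real.log p ≤
        7 / 8 * Real.log ((a + b : ℕ) : ℝ) ∧
      (1 - 3 * δ) / 10 * ∑ p ∈ (N3 a b).primeFactors, Real.log p ≤ ∑ p ∈ s, Real.log p)).ncard
    : ℝ) ≤ X ^ (1 - (1 - 3 * δ) / 11)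

/-- FH: triples with a large prime. -/
def StmtFH : Prop := ∀ δ : ℝ, 0 < δ → δ < 1 / 3 → ∃ X₀ : ℝ, 3 ≤ X₀ ∧ ∀ X : ℝ, X₀ ≤ X →
  ((RadSet X (fun a b => Real.log X ^ ((9 : ℝ) / 4) ≤ Real.log ((a + b : ℕ) : ℝ) ∧
    Real.log ((a + b : ℕ) : ℝ) ≤ X ^ δ ∧
    ∃ p ∈ (N3 a b).primeFactors,
      (1 + 7 * δ) / 10 * ∑ p ∈ (N3 a b).primeFactors, Real.log p ≤ Real.log p)).ncard
    : ℝ) ≤ X ^ (1 - (1 - 3 * δ) / 11)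

/-- MAIN: the theorem. -/
def StmtMAIN : Prop := ∀ δ : ℝ, 0 < δ → δ < 1 / 3 → ∃ C : ℝ, ∀ X : ℝ, 1 ≤ X →
  (({R : ℕ | (R : ℝ) ≤ X ∧ ∃ a b c : ℕ, 0 < a ∧ 0 < b ∧ Nat.Coprime a b ∧ a + b = c ∧
    ∏ p ∈ (a * b * c).primeFactors, p = R ∧ Real.log c ≤ X ^ δ}.ncard : ℕ) : ℝ) ≤
      C * X ^ (1 - (1 - 3 * δ) / 11)

end

end Pool.Agent.W223.RA
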